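import Pool.Agent.H547.C9.Stm3

set_option autoImplicit false

/-!
# `S_E2` and `S_Fc` for MP_c9f782
-/

namespace Pool.Agent.H296.C9

open Finset Nat Pool.Agent.H547.P3 Pool.Agent.H547.P4 Pool.Agent.H547.C9

variable {p : ℕ} [hp : Fact p.Prime]

theorem WS_QP {h z : ZMod (p ^ 3)} (hh : 2 * h = 1) (hz : IsUnit z) (a b : ZMod (p ^ 3)) :
    QP (p : ZMod (p ^ 3)) (WS p a b z) := by
  obtain ⟨ν, hν⟩ := fermat_unit hz
  have h1 : QP (p : ZMod (p ^ 3)) (fun κ => (z ^ (p - 1)) ^ κ) := by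
    have := QP.exp (P := (p : ZMod (p ^ 3))) p3_zero hh ν 1
    simp only [one_mul] at this
    rw [hν]
    exact this
  have h2 : ∀ j : ℕ, QP (p : ZMod (p ^ 3))
      (fun κ => a * ((p : ZMod (p ^ 3)) * (κ : ZMod (p ^ 3)) + (j : ZMod (p ^ 3))) + b) :=
    fun j => ⟨a * j + b, a, 0, fun κ => by ring⟩
  have h3 : QP (p : ZMod (p ^ 3)) (fun κ => ∑ j ∈ range p,
      (a * ((p : ZMod (p ^ 3)) * (κ : ZMod (p ^ 3)) + (j : ZMod (p ^ 3))) + b) * (Gu p j κ * z ^ j)) := by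
    refine QP.sum (range p) fun j hj => ?_
    exact QP.mul p3_zero (h2 j) (QP.mul p3_zero (Gu_QP j (mem_range.mp hj)) (QP.const _ _))
  exact QP.mul p3_zero h1 h3

theorem WS_one (hp5 : 5 ≤ p) (a b z : ZMod (p ^ 3)) :
    8 * z * WS p a b z 1 = ∑ j ∈ range p,
      (a * ((p + j : ℕ) : ZMod (p ^ 3)) + b) * ((uc (p + j) : ZMod (p ^ 3)) * z ^ (p + j)) := by
  unfold WS
  have hz : z ^ p = z ^ (p - 1) * z := by rw [← pow_succ, Nat.sub_add_cancel hp.out.one_le]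
  rw [pow_one, mul_sum, mul_sum]
  refine sum_congr rfl fun j hj => ?_
  have h1 := Gu_spec hp5 1 j (mem_range.mp hj)
  have h2 : (uc 1 : ZMod (p ^ 3)) = 8 := by
    have : uc 1 = 8 := by decide
    rw [this]; norm_num
  rw [mul_one, h2] at h1
  rw [h1, pow_add, hz]
  push_cast
  ring

theorem E2 : Pool.Agent.H547.C9.S_E2 := by
  intro p _ h a b z hp5 hh hz
  refine ⟨?_, ?_, ?_⟩
  · obtain ⟨A, B, C, hf⟩ := WS_QP hh hz a b
    refine ⟨C, ?_⟩
    unfold c2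
    rw [hf 2, hf 1, hf 0]
    push_cast
    linear_combination ((p : ZMod (p ^ 3)) ^ 2 * C) * hh
  · unfold WS
    rw [pow_zero, one_mul]
    refine sum_congr rfl fun j hj => ?_
    rw [Gu_zero hp5 j (mem_range.mp hj), Nat.cast_zero, mul_zero, zero_add]
  · rw [WS_one hp5, two_mul, Finset.sum_range_add]
    ring

theorem v3_Q (k : ℕ) : (v3 k : ℚ) = ((2 * k)! : ℚ) * ((3 * k)! : ℚ) / (k ! : ℚ) ^ 5 := by
  unfold v3
  rw [Nat.centralBinom_eq_two_mul_choose]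
  push_cast
  rw [Nat.cast_choose ℚ (show k ≤ 3 * k by omega),
    Nat.cast_choose ℚ (show k ≤ 2 * k by omega), show 3 * k - k = 2 * k by omega,
    show 2 * k - k = k by omega]
  have h1 : ((2 * k)! : ℚ) ≠ 0 := by positivity
  have h3 : ((k)! : ℚ) ≠ 0 := by positivity
  field_simp

theorem v3_recQ (N : ℕ) : (v3 (N + 1) : ℚ) * ((N : ℚ) + 1) ^ 3 =
    6 * (2 * (N : ℚ) + 1) * (3 * N + 1) * (3 * N + 2) * v3 N := by
  rw [v3_Q, v3_Q]
  have h3 : ((N)! : ℚ) ≠ 0 := by positivity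
  have h4 : ((N : ℚ) + 1) ≠ 0 := by positivity
  have e1 : ((2 * (N + 1))! : ℚ) = (2 * N + 1) * (2 * N + 2) * (2 * N)! := by
    rw [show 2 * (N + 1) = 2 * N + 1 + 1 by ring]
    simp only [Nat.factorial_succ]
    push_cast; ring
  have e2 : ((3 * (N + 1))! : ℚ) = 3 * (3 * N + 1) * (3 * N + 2) * (N + 1) * (3 * N)! := by
    rw [show 3 * (N + 1) = 3 * N + 1 + 1 + 1 by ring]
    simp only [Nat.factorial_succ]
    push_cast; ring
  have e3 : ((N + 1)! : ℚ) = (N + 1) * N ! := by rw [Nat.factorial_succ]; push_cast; ring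
  rw [e1, e2, e3]
  field_simp
  ring

theorem v3_rec (N : ℕ) : (v3 (N + 1) : ZMod (p ^ 3)) * ((N : ZMod (p ^ 3)) + 1) ^ 3 = P3c p N * v3 N := by
  have h : v3 (N + 1) * (N + 1) ^ 3 = 6 * (2 * N + 1) * (3 * N + 1) * (3 * N + 2) * v3 N := by
    have := v3_recQ N
    exact_mod_cast this
  have := congrArg (Nat.cast : ℕ → ZMod (p ^ 3)) h
  push_cast at this
  exact this

theorem v3_p3 (hp5 : 5 ≤ p) (κ : ℕ) : ((v3 (p * κ) : ℕ) : ZMod (p ^ 3)) = (v3 κ : ZMod (p ^ 3)) := by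
  unfold v3
  rw [Nat.centralBinom_eq_two_mul_choose, Nat.centralBinom_eq_two_mul_choose]
  have h1 := choose_p3 hp5 (2 * κ) κ (by omega)
  have h2 := choose_p3 hp5 (3 * κ) κ (by omega)
  rw [show p * (2 * κ) = 2 * (p * κ) by ring] at h1
  rw [show p * (3 * κ) = 3 * (p * κ) by ring] at h2
  push_cast
  rw [h1, h2]

theorem P3c_QP (j : ℕ) : QP (p : ZMod (p ^ 3)) (fun κ => P3c p (p * κ + j)) := by
  have h := QP.mul p3_zero (QP.mul p3_zero (QP.mul p3_zero (QP.const (p : ZMod (p ^ 3)) 6) (lin_QP (p := p) 2 1 j))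
    (lin_QP (p := p) 3 1 j)) (lin_QP (p := p) 3 2 j)
  unfold P3c
  push_cast at h ⊢
  exact h

theorem Fch : Pool.Agent.H547.C9.S_Fc := by
  intro p _ hp5
  refine ⟨HH_QP (fun j => P3c_QP j), fun κ j hj => ?_⟩
  exact HH_spec (v := fun k => (v3 k : ZMod (p ^ 3))) (v3_p3 hp5) (fun N => v3_rec N) κ j hj

end Pool.Agent.H296.C9
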